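import Mathlib

/-! Sample compression schemes, balls of a graph, treewidth. -/

namespace Pool.Agent.MP_dcb13e_co.H41

/-- the ball of centre `c` and integer radius `r`: the vertices joined to `c` by a walk with at
most `r` edges -/
def ball {V : Type} (G : SimpleGraph V) (c : V) (r : ℤ) : Set V :=
  {v | ∃ p : G.Walk c v, (p.length : ℤ) ≤ r}

/-- the hyperedges of the hypergraph of balls -/
def balls {V : Type} (G : SimpleGraph V) : Set (Set V) := {e | ∃ c r, e = ball G c r}

/-- `S` contains the positive part and avoids the negative part -/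
def Realizes {V : Type} (S : Set V) (X : Set V × Set V) : Prop := X.1 ⊆ S ∧ Disjoint S X.2

/-- the samples of the hypergraph with hyperedge set `E` -/
def Sample {V : Type} (E : Set (Set V)) : Type := {X : Set V × Set V // ∃ e ∈ E, Realizes e X}

/-- the hypergraph with hyperedge set `E` has a proper sample compression scheme of size at
most `k` -/
def HasProperScheme {V : Type} (E : Set (Set V)) (k : ℕ) : Prop :=
  ∃ (κ : Sample E → Sample E × List Bool) (ρ : Sample E × List Bool → Set V) (k₁ k₂ : ℕ),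
    k₁ + k₂ ≤ k ∧
    (∀ X, (κ X).1.1.1 ⊆ X.1.1 ∧ (κ X).1.1.2 ⊆ X.1.2 ∧ Realizes (ρ (κ X)) X.1 ∧
      ((κ X).1.1.1 ∪ (κ X).1.1.2).ncard ≤ k₁ ∧ (κ X).2.length ≤ k₂) ∧
    ∀ p, ρ p ∈ E

/-- `G` has treewidth at most `t`: there is a finite tree `T` with a bag of at most `t + 1`
vertices of `G` at each node, such that every vertex and every edge of `G` lies in some bag, and
`bag j ∩ bag k ⊆ bag i` whenever `i` lies on the path of `T` from `j` to `k`. -/
def TreewidthLE {V : Type} (G : SimpleGraph V) (t : ℕ) : Prop :=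
  ∃ (m : ℕ) (T : SimpleGraph (Fin m)) (bag : Fin m → Set V),
    T.IsTree ∧ (∀ i, (bag i).ncard ≤ t + 1) ∧ (∀ v, ∃ i, v ∈ bag i) ∧
    (∀ u v, G.Adj u v → ∃ i, u ∈ bag i ∧ v ∈ bag i) ∧
    ∀ (j k : Fin m) (q : T.Walk j k), q.IsPath → ∀ i ∈ q.support, bag j ∩ bag k ⊆ bag i

end Pool.Agent.MP_dcb13e_co.H41
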