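import Mathlib

/-! Regions of a finite tree cut off from a set of marked nodes by two nodes. -/

namespace Pool.Agent.MP_dcb13e_co.H41

open Finset

/-- the data that describes a region: three points and three flags -/
abbrev Dat (ι : Type) := (Fin 3 → ι) × (Fin 3 → Bool)

section order

variable {ι : Type} [Fintype ι] [PartialOrder ι]

/-- `w` lies between `a` and `b` in a rooted tree -/
def Btw (a w b : ι) : Prop := (w ≤ a ∨ w ≤ b) ∧ ∀ c, c ≤ a → c ≤ b → c ≤ w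

omit [Fintype ι] in
lemma Btw.symm {a w b : ι} (h : Btw a w b) : Btw b w a := ⟨h.1.symm, fun c h1 h2 => h.2 c h2 h1⟩

/-- number of common ancestors -/
noncomputable def pos (m a : ι) : ℕ := {c | c ≤ a ∧ c ≤ m}.ncard

/-- the first ancestor of `a` that is not an ancestor of `m` -/
def off (m a : ι) : Set ι := {e | e ≤ a ∧ ¬ e ≤ m ∧ ∀ c, c < e → c ≤ m}

/-- the key of `a` relative to the path from the root to `m` -/
noncomputable def key (m a : ι) : ℕ ×ₗ ℕ :=
  toLex (pos m a, (Finite.equivFin (Set ι) (off m a) : ℕ))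

lemma key_eq_iff {m a b : ι} : key m a = key m b ↔ pos m a = pos m b ∧ off m a = off m b := by
  simp [key, Fin.val_inj]

lemma pos_le_of_key_le {m a b : ι} (h : key m a ≤ key m b) : pos m a ≤ pos m b := by
  rcases Prod.Lex.toLex_le_toLex.1 h with h | h
  exacts [h.le, h.1.le]

variable (hc : ∀ a a' b : ι, a ≤ b → a' ≤ b → a ≤ a' ∨ a' ≤ a)
include hc

lemma le_of_pos_le {m c w : ι} (h1 : c ≤ m) (h2 : w ≤ m) (h : pos m c ≤ pos m w) : c ≤ w := by
  by_contra hcw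
  have h3 : w ≤ c := (hc c w m h1 h2).resolve_left hcw
  exact absurd h (not_le.2 (Set.ncard_lt_ncard ⟨fun e he => ⟨he.1.trans h3, he.2⟩,
    fun hs => hcw (hs ⟨le_rfl, h1⟩).1⟩ (Set.toFinite _)))

lemma exists_proj (hr : ∃ r : ι, ∀ a, r ≤ a) (m a : ι) :
    ∃ w, w ≤ m ∧ w ≤ a ∧ pos m w = pos m a := by
  obtain ⟨r, hr⟩ := hr
  obtain ⟨w, ⟨h1, h2⟩, h3⟩ := Set.Finite.exists_maximal (Set.toFinite {c | c ≤ a ∧ c ≤ m})
    ⟨r, hr a, hr m⟩
  refine ⟨w, h2, h1, congrArg Set.ncard (Set.ext fun c => ⟨fun h => ⟨h.1.trans h1, h.2⟩,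
    fun h => ⟨?_, h.2⟩⟩)⟩
  rcases hc c w m h.2 h2 with h4 | h4
  exacts [h4, h3 h h4]

lemma key_eq_of_off {m c a : ι} (h1 : c ≤ a) (h2 : ¬ c ≤ m) : key m c = key m a := by
  refine key_eq_iff.2 ⟨congrArg Set.ncard (Set.ext fun e => ⟨fun h => ⟨h.1.trans h1, h.2⟩,
    fun h => ⟨?_, h.2⟩⟩), Set.ext fun e => ⟨fun h => ⟨h.1.trans h1, h.2⟩, fun h => ⟨?_, h.2⟩⟩⟩
  · exact (hc e c a h.1 h1).resolve_right fun h3 => h2 (h3.trans h.2)
  · rcases hc e c a h.1 h1 with h3 | h3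
    · exact h3
    · rcases h3.eq_or_lt with h4 | h4
      exacts [h4.ge, absurd (h.2.2 c h4) h2]

lemma btw_of_key (hr : ∃ r : ι, ∀ a, r ≤ a) {m a b w : ι} (hw : w ≤ m) (hk : key m a ≠ key m b)
    (h1 : pos m a ≤ pos m w) (h2 : pos m w ≤ pos m b) : Btw a w b := by
  constructor
  · obtain ⟨p, e1, e2, e3⟩ := exists_proj hc hr m b
    exact Or.inr ((le_of_pos_le hc hw e1 (e3 ▸ h2)).trans e2)
  · intro c ha hb
    by_cases h : c ≤ m
    · refine le_of_pos_le hc h hw (le_trans ?_ h1)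
      exact Set.ncard_le_ncard (fun e he => ⟨he.1.trans ha, he.2⟩) (Set.toFinite _)
    · exact absurd ((key_eq_of_off hc ha h).symm.trans (key_eq_of_off hc hb h)) hk

lemma key_ne {m n a : ι} (hna : n ≠ a) (hmax : pos n a ≤ pos n m) : key m n ≠ key m a := by
  intro h
  obtain ⟨h1, h2⟩ := key_eq_iff.1 h
  have ne : ∀ b, ¬ b ≤ m → (off m b).Nonempty := fun b hb => by
    obtain ⟨e, ⟨e1, e2⟩, e3⟩ := Set.Finite.exists_minimal (Set.toFinite {e | e ≤ b ∧ ¬ e ≤ m})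
      ⟨b, le_rfl, hb⟩
    exact ⟨e, e1, e2, fun c hce => by
      by_contra h3
      exact hce.not_ge (e3 ⟨hce.le.trans e1, h3⟩ hce.le)⟩
  by_cases hn : n ≤ m
  · by_cases ha : a ≤ m
    · exact hna (le_antisymm (le_of_pos_le hc hn ha h1.le) (le_of_pos_le hc ha hn h1.ge))
    · obtain ⟨e, he⟩ := ne a ha
      rw [← h2] at he
      exact he.2.1 (he.1.trans hn)
  · obtain ⟨e, he⟩ := ne n hn
    have he' : e ∈ off m a := h2 ▸ he
    refine absurd hmax (not_le.2 (Set.ncard_lt_ncard ⟨fun c h3 => ⟨?_, h3.2⟩,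
      fun hs => he.2.1 (hs ⟨he'.1, he.1⟩).1⟩ (Set.toFinite _)))
    exact ((hc c e n h3.2 he.1).resolve_right fun h4 => he.2.1 (h4.trans h3.1)).trans he'.1

theorem region_order (hr : ∃ r : ι, ∀ a, r ≤ a) :
    ∃ (W₁ W₂ : Dat ι → ι) (R : Dat ι → Set ι), ∀ (M : Set ι) (n : ι), M.Nonempty →
      ∃ d : Dat ι, (∀ i, d.1 i ∈ M) ∧ n ∈ R d ∧
        ∀ n' ∈ R d, ∀ a ∈ M, Btw n' (W₁ d) a ∨ Btw n' (W₂ d) a := by
  classical
  choose pr hp1 hp2 hp3 using exists_proj hc hr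
  refine ⟨fun d => if d.2 0 then d.1 0 else pr (d.1 0) (d.1 1), fun d => pr (d.1 0) (d.1 2),
    fun d => if d.2 0 then {d.1 0} else {n' | (d.2 1 → key (d.1 0) (d.1 1) < key (d.1 0) n') ∧
      (d.2 2 → key (d.1 0) n' < key (d.1 0) (d.1 2))}, fun M n hM => ?_⟩
  by_cases hn : n ∈ M
  · refine ⟨(fun _ => n, fun _ => true), fun _ => hn, by simp, fun n' h a _ => Or.inl ?_⟩
    have : n' = n := by simpa using h
    subst this
    exact ⟨Or.inl (by simp), fun c h1 _ => by simpa using h1⟩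
  obtain ⟨m, hm, hmax⟩ := Set.exists_max_image M (pos n) (Set.toFinite _) hM
  have hne : ∀ a ∈ M, key m n ≠ key m a := fun a ha =>
    key_ne hc (fun h => hn (h ▸ ha)) (hmax a ha)
  have hlo : ∃ (lo : ι) (f : Bool), lo ∈ M ∧ (f → key m lo < key m n) ∧
      ∀ a ∈ M, key m a < key m n → f ∧ key m a ≤ key m lo := by
    by_cases h : {a ∈ M | key m a < key m n}.Nonempty
    · obtain ⟨lo, h1, h2⟩ := Set.exists_max_image _ (key m) (Set.toFinite _) h
      exact ⟨lo, true, h1.1, fun _ => h1.2, fun a e1 e2 => ⟨rfl, h2 a ⟨e1, e2⟩⟩⟩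
    · exact ⟨m, false, hm, by simp, fun a e1 e2 => absurd ⟨a, e1, e2⟩ h⟩
  have hhi : ∃ (hi : ι) (f : Bool), hi ∈ M ∧ (f → key m n < key m hi) ∧
      ∀ a ∈ M, key m n < key m a → f ∧ key m hi ≤ key m a := by
    by_cases h : {a ∈ M | key m n < key m a}.Nonempty
    · obtain ⟨hi, h1, h2⟩ := Set.exists_min_image _ (key m) (Set.toFinite _) h
      exact ⟨hi, true, h1.1, fun _ => h1.2, fun a e1 e2 => ⟨rfl, h2 a ⟨e1, e2⟩⟩⟩
    · exact ⟨m, false, hm, by simp, fun a e1 e2 => absurd ⟨a, e1, e2⟩ h⟩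
  obtain ⟨lo, f, l1, l2, l3⟩ := hlo
  obtain ⟨hi, g, u1, u2, u3⟩ := hhi
  refine ⟨(![m, lo, hi], ![false, f, g]), fun i => by fin_cases i <;> simpa, ⟨l2, u2⟩,
    fun n' h a ha => ?_⟩
  obtain ⟨k1, k2⟩ : (f → key m lo < key m n') ∧ (g → key m n' < key m hi) := h
  rcases (hne a ha).lt_or_gt with h1 | h1
  · obtain ⟨e1, e2⟩ := u3 a ha h1
    exact Or.inr (btw_of_key hc hr (hp1 m hi) ((k2 e1).trans_le e2).ne
      ((pos_le_of_key_le (k2 e1).le).trans (hp3 m hi).ge)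
      ((hp3 m hi).le.trans (pos_le_of_key_le e2)))
  · obtain ⟨e1, e2⟩ := l3 a ha h1
    exact Or.inl (btw_of_key hc hr (hp1 m lo) (e2.trans_lt (k1 e1)).ne
      ((pos_le_of_key_le e2).trans (hp3 m lo).ge)
      ((hp3 m lo).le.trans (pos_le_of_key_le (k1 e1).le))).symm

omit [Fintype ι] in
lemma mem_support_of_btw {T : SimpleGraph ι}
    (hadj : ∀ x y, T.Adj x y → (∀ w, w ≤ y ↔ w = y ∨ w ≤ x) ∨ ∀ w, w ≤ x ↔ w = x ∨ w ≤ y)
    {a b w : ι} (q : T.Walk a b) (h : Btw a w b) : w ∈ q.support := by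
  induction q with
  | nil => simpa using le_antisymm (h.1.elim id id) (h.2 _ le_rfl le_rfl)
  | @cons a a' b ha q ih =>
    by_cases hw : w = a
    · simp [hw]
    refine List.mem_cons_of_mem _ (ih ?_)
    rcases hadj a a' ha with h1 | h1
    · refine ⟨h.1.imp (fun e => (h1 w).2 (Or.inr e)) id, fun c e1 e2 => ?_⟩
      rcases (h1 c).1 e1 with rfl | e3
      · have e4 : a ≤ w := h.2 a le_rfl (((h1 a).2 (Or.inr le_rfl)).trans e2)
        have e5 : w ≤ b := h.1.resolve_left fun e => hw (le_antisymm e e4)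
        rcases hc c w b e2 e5 with e6 | e6
        · exact e6
        · rcases (h1 w).1 e6 with e7 | e7
          exacts [e7.ge, absurd (le_antisymm e7 e4) hw]
      · exact h.2 c e3 e2
    · exact ⟨h.1.imp (fun e => ((h1 w).1 e).resolve_left hw) id,
        fun c e1 e2 => h.2 c ((h1 c).2 (Or.inr e1)) e2⟩

end order

theorem region_tree {ι : Type} [Fintype ι] {T : SimpleGraph ι} (hT : T.IsTree) :
    ∃ (W₁ W₂ : Dat ι → ι) (R : Dat ι → Set ι), ∀ (M : Set ι) (n : ι), M.Nonempty →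
      ∃ d : Dat ι, (∀ i, d.1 i ∈ M) ∧ n ∈ R d ∧ ∀ n' ∈ R d, ∀ a ∈ M,
        (∀ q : T.Walk n' a, W₁ d ∈ q.support) ∨ ∀ q : T.Walk n' a, W₂ d ∈ q.support := by
  obtain ⟨r⟩ := hT.connected.nonempty
  choose P hP using fun a => (hT.existsUnique_path r a).exists
  have hinj : ∀ a b, (P a).support = (P b).support → a = b := fun a b h => by
    have h1 := (P a).getLast_support
    have h2 := (P b).getLast_support
    simp only [h] at h1
    exact h1.symm.trans h2
  let _ : PartialOrder ι :=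
    { le := fun a b => (P a).support <+: (P b).support
      le_refl := fun a => List.prefix_rfl
      le_trans := fun a b c => List.IsPrefix.trans
      le_antisymm := fun a b h1 h2 =>
        hinj a b (h1.eq_of_length (le_antisymm h1.length_le h2.length_le)) }
  have hc : ∀ a a' b : ι, a ≤ b → a' ≤ b → a ≤ a' ∨ a' ≤ a := fun a a' b =>
    List.prefix_or_prefix_of_prefix
  have hr : ∃ r : ι, ∀ a, r ≤ a := ⟨r, fun a => by
    change (P r).support <+: (P a).support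
    rw [(SimpleGraph.Walk.isPath_iff_nil.1 (hP r)).eq_nil, ← (P a).cons_tail_support]
    exact ⟨_, rfl⟩⟩
  have h1 : ∀ x y, T.Adj x y → x ∈ (P y).support → ∀ w, w ≤ y ↔ w = y ∨ w ≤ x := by
    intro x y h hx w
    have e := congrArg SimpleGraph.Walk.support (hT.isAcyclic.path_concat (hP x) (hP y) h hx)
    rw [SimpleGraph.Walk.support_concat] at e
    change (P w).support <+: (P y).support ↔ w = y ∨ (P w).support <+: (P x).support
    constructor
    · intro h2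
      rw [e, List.prefix_concat_iff, ← e] at h2
      exact h2.imp (hinj w y) id
    · rintro (rfl | h2)
      · exact List.prefix_rfl
      · rw [e]
        exact h2.trans (List.prefix_append _ _)
  have hadj : ∀ x y, T.Adj x y →
      (∀ w, w ≤ y ↔ w = y ∨ w ≤ x) ∨ ∀ w, w ≤ x ↔ w = x ∨ w ≤ y := fun x y h => by
    by_cases hx : x ∈ (P y).support
    · exact Or.inl (h1 x y h hx)
    · exact Or.inr (h1 y x h.symm
        (hT.isAcyclic.mem_support_of_ne_mem_support_of_adj_of_isPath (hP x) (hP y) h hx))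
  obtain ⟨W₁, W₂, R, h⟩ := region_order hc hr
  refine ⟨W₁, W₂, R, fun M n hM => ?_⟩
  obtain ⟨d, h2, h3, h4⟩ := h M n hM
  exact ⟨d, h2, h3, fun n' e1 a e2 => (h4 n' e1 a e2).imp
    (fun e q => mem_support_of_btw hc hadj q e) fun e q => mem_support_of_btw hc hadj q e⟩

end Pool.Agent.MP_dcb13e_co.H41
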