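import Pool.Agent.MP_dcb13e_co.H41.Defs
import Pool.Agent.MP_dcb13e_co.H41.Tree

/-! A proper sample compression scheme of linear size for balls in graphs of bounded treewidth. -/

namespace Pool.Agent.MP_dcb13e_co.H41

variable {V : Type} [Fintype V] {G : SimpleGraph V}

/-- `S` meets every walk from `a` to `b` -/
def Cuts (G : SimpleGraph V) (S : Set V) (a b : V) : Prop :=
  ∀ p : G.Walk a b, ∃ s ∈ S, s ∈ p.support

omit [Fintype V] in
lemma region_graph {t : ℕ} (h : TreewidthLE G t) :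
    ∃ (S : Dat V → Set V) (R : Dat V → Set V), (∀ d, (S d).ncard ≤ 2 * t + 2) ∧
      ∀ (X : Set V) (c : V), X.Nonempty → ∃ d : Dat V, (∀ i, d.1 i ∈ X) ∧ c ∈ R d ∧
        ∀ c' ∈ R d, ∀ x ∈ X, Cuts G (S d) c' x := by
  obtain ⟨m, T, bag, hT, hcard, hv, he, hp⟩ := h
  choose ν hν using hv
  have sep : ∀ (w : Fin m) (v z : V) (p : G.Walk v z) (a b : Fin m), v ∈ bag a → z ∈ bag b →
      (∀ q : T.Walk a b, w ∈ q.support) → ∃ s ∈ bag w, s ∈ p.support := by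
    have base : ∀ (w a b : Fin m) (v : V), v ∈ bag a → v ∈ bag b →
        (∀ q : T.Walk a b, w ∈ q.support) → v ∈ bag w := fun w a b v h1 h2 h3 => by
      obtain ⟨q, hq⟩ := (hT.existsUnique_path a b).exists
      exact hp a b q hq w (h3 q) ⟨h1, h2⟩
    intro w v z p
    induction p with
    | nil => exact fun a b h1 h2 h3 => ⟨_, base w a b _ h1 h2 h3, by simp⟩
    | @cons v v' z hvv p ih =>
      intro a b h1 h2 h3
      obtain ⟨a', e1, e2⟩ := he v v' hvv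
      by_cases h4 : ∀ q : T.Walk a a', w ∈ q.support
      · exact ⟨v, base w a a' v h1 e1 h4, by simp⟩
      · push Not at h4
        obtain ⟨q₁, hq₁⟩ := h4
        obtain ⟨s, e3, e4⟩ := ih a' b e2 h2 fun q₂ =>
          ((SimpleGraph.Walk.mem_support_append_iff q₁ q₂).1 (h3 _)).resolve_left hq₁
        exact ⟨s, e3, List.mem_cons_of_mem _ e4⟩
  obtain ⟨W₁, W₂, R, h⟩ := region_tree hT
  refine ⟨fun d => bag (W₁ (ν ∘ d.1, d.2)) ∪ bag (W₂ (ν ∘ d.1, d.2)),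
    fun d => ν ⁻¹' R (ν ∘ d.1, d.2), fun d => (Set.ncard_union_le _ _).trans ?_, fun X c hX => ?_⟩
  · have := hcard (W₁ (ν ∘ d.1, d.2))
    have := hcard (W₂ (ν ∘ d.1, d.2))
    omega
  · obtain ⟨⟨d₁, d₂⟩, h1, h2, h3⟩ := h (ν '' X) (ν c) (hX.image ν)
    choose x hx1 hx2 using h1
    have e : ν ∘ x = d₁ := funext hx2
    refine ⟨(x, d₂), hx1, by simpa [e] using h2, fun c' h4 z hz p => ?_⟩
    simp only [e] at h4 ⊢
    rcases h3 (ν c') h4 (ν z) ⟨z, hz, rfl⟩ with h5 | h5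
    · obtain ⟨s, e1, e2⟩ := sep _ c' z p _ _ (hν c') (hν z) h5
      exact ⟨s, Or.inl e1, e2⟩
    · obtain ⟨s, e1, e2⟩ := sep _ c' z p _ _ (hν c') (hν z) h5
      exact ⟨s, Or.inr e1, e2⟩

/-- `z` is reached from `c` through `s` within `r` steps -/
def Cov (G : SimpleGraph V) (c : V) (r : ℤ) (s z : V) : Prop :=
  ∃ (p : G.Walk c s) (q : G.Walk s z), (p.length : ℤ) + q.length ≤ r

omit [Fintype V] in
lemma Cov.mem {c s z : V} {r : ℤ} (h : Cov G c r s z) : z ∈ ball G c r := by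
  obtain ⟨p, q, h⟩ := h
  exact ⟨p.append q, by simpa using h⟩

omit [Fintype V] in
lemma Cov.mono {c s z z' : V} {r : ℤ} (h : Cov G c r s z) (hz : G.edist s z' ≤ G.edist s z) :
    Cov G c r s z' := by
  obtain ⟨p, q, h⟩ := h
  have h1 := hz.trans (SimpleGraph.edist_le q)
  obtain ⟨q', hq'⟩ := SimpleGraph.exists_walk_of_edist_ne_top
    (h1.trans_lt (ENat.natCast_lt_top _)).ne
  rw [← hq'] at h1
  have h2 : q'.length ≤ q.length := by exact_mod_cast h1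
  exact ⟨p, q', by omega⟩

omit [Fintype V] in
lemma Cuts.cov {S : Set V} {c z : V} {r : ℤ} (h : Cuts G S c z) (hz : z ∈ ball G c r) :
    ∃ s ∈ S, Cov G c r s z := by
  classical
  obtain ⟨p, hp⟩ := hz
  obtain ⟨s, h1, h2⟩ := h p
  refine ⟨s, h1, p.takeUntil s h2, p.dropUntil s h2, ?_⟩
  have := congrArg SimpleGraph.Walk.length (p.take_spec h2)
  rw [SimpleGraph.Walk.length_append] at this
  omega

/-- a fixed numbering of the vertices -/
noncomputable def idx (v : V) : ℕ := Fintype.equivFin V v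

lemma idx_inj {a b : V} (h : idx a = idx b) : a = b := (Fintype.equivFin V).injective (Fin.ext h)

/-- the self-decoding assignment -/
def Dec (G : SimpleGraph V) (U : Set V) (σ : V → V) : Prop :=
  ∀ s ∈ U, ∀ s' ∈ U, idx s < idx s' → G.edist s (σ s) < G.edist s (σ s')

lemma Dec.unique {U : Set V} {σ σ' : V → V} (h : Dec G U σ) (h' : Dec G U σ')
    (he : σ '' U = σ' '' U) : ∀ s ∈ U, σ s = σ' s := by
  intro s
  induction hn : idx s using Nat.strong_induction_on generalizing s with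
  | _ n ih =>
    subst hn
    intro hs
    by_contra hne
    have key : ∀ τ τ' : V → V, Dec G U τ → Dec G U τ' → τ '' U = τ' '' U → τ s ≠ τ' s →
        (∀ a ∈ U, idx a < idx s → τ a = τ' a) → G.edist s (τ' s) < G.edist s (τ s) := by
      intro τ τ' e1 e2 e3 e4 e5
      obtain ⟨a, ha, e6⟩ : τ s ∈ τ' '' U := e3 ▸ ⟨s, hs, rfl⟩
      rcases lt_trichotomy (idx a) (idx s) with e7 | e7 | e7
      · have := e1 a ha s hs e7
        rw [e5 a ha e7, e6] at this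
        exact absurd this (lt_irrefl _)
      · exact absurd (idx_inj e7 ▸ e6).symm e4
      · exact e6 ▸ e2 s hs a ha e7
    exact (key σ σ' h h' he hne fun a ha e => ih _ e a rfl ha).asymm
      (key σ' σ h' h he.symm (Ne.symm hne) fun a ha e => (ih _ e a rfl ha).symm)

lemma greedy {S X : Set V} {c : V} {r : ℤ} (h : ∀ x ∈ X, ∃ s ∈ S, Cov G c r s x) :
    ∃ (U : Set V) (σ : V → V), U ⊆ S ∧ Dec G U σ ∧ (∀ s ∈ U, σ s ∈ X ∧ Cov G c r s (σ s)) ∧
      ∀ x ∈ X, ∃ s ∈ U, G.edist s x ≤ G.edist s (σ s) := by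
  have h1 : ∀ x, ∃ s, x ∈ X → s ∈ S ∧ Cov G c r s x ∧
      ∀ s' ∈ S, Cov G c r s' x → idx s ≤ idx s' := fun x => by
    by_cases hx : x ∈ X
    · obtain ⟨s, e1, e2⟩ := Set.exists_min_image {s ∈ S | Cov G c r s x} idx (Set.toFinite _)
        (h x hx)
      exact ⟨s, fun _ => ⟨e1.1, e1.2, fun s' e3 e4 => e2 s' ⟨e3, e4⟩⟩⟩
    · exact ⟨c, fun e => absurd e hx⟩
  choose f hf using h1
  have h2 : ∀ s, ∃ x, s ∈ f '' X → (x ∈ X ∧ f x = s) ∧
      ∀ x' ∈ X, f x' = s → G.edist s x' ≤ G.edist s x := fun s => by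
    by_cases hs : s ∈ f '' X
    · obtain ⟨x, e1, e2⟩ := Set.exists_max_image {x ∈ X | f x = s} (G.edist s) (Set.toFinite _) hs
      exact ⟨x, fun _ => ⟨e1, fun x' e3 e4 => e2 x' ⟨e3, e4⟩⟩⟩
    · exact ⟨c, fun e => absurd e hs⟩
  choose σ hσ using h2
  have h3 : ∀ s ∈ f '' X, σ s ∈ X ∧ Cov G c r s (σ s) := fun s hs => by
    obtain ⟨⟨e1, e2⟩, -⟩ := hσ s hs
    exact ⟨e1, by have := (hf _ e1).2.1; rwa [e2] at this⟩
  have h4 : f '' X ⊆ S := by
    rintro _ ⟨x, hx, rfl⟩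
    exact (hf x hx).1
  refine ⟨f '' X, σ, h4, fun s hs s' hs' hlt => ?_, h3,
    fun x hx => ⟨f x, ⟨x, hx, rfl⟩, (hσ _ ⟨x, hx, rfl⟩).2 x hx rfl⟩⟩
  by_contra hle
  obtain ⟨⟨e1, e2⟩, -⟩ := hσ s' hs'
  have := (hf _ e1).2.2 s (h4 hs) ((h3 s hs).2.mono (not_lt.1 hle))
  rw [e2] at this
  omega

lemma nearest (G : SimpleGraph V) (S X : Set V) :
    ∃ Y ⊆ X, Y.ncard ≤ S.ncard ∧ ∀ s ∈ S, ∀ y ∈ X, ∃ y' ∈ Y, G.edist s y' ≤ G.edist s y := by
  rcases X.eq_empty_or_nonempty with rfl | hX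
  · exact ⟨∅, subset_rfl, by simp, by simp⟩
  choose f h1 h2 using fun s => Set.exists_min_image X (G.edist s) (Set.toFinite _) hX
  refine ⟨f '' S, ?_, Set.ncard_image_le (Set.toFinite _),
    fun s hs y hy => ⟨f s, ⟨s, hs, rfl⟩, h2 s y hy⟩⟩
  rintro _ ⟨s, -, rfl⟩
  exact h1 s

/-- subsets of a set with at most `N` elements are coded by `N` bits -/
lemma exists_enc (N : ℕ) : ∃ enc : Set V → Set V → Fin N → Bool,
    ∀ A B B' : Set V, A.ncard ≤ N → B ⊆ A → B' ⊆ A → enc A B = enc A B' → B = B' := by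
  classical
  have h : ∀ A : Set V, ∃ g : V → ℕ, A.ncard ≤ N → (∀ a ∈ A, g a < N) ∧ Set.InjOn g A := by
    intro A
    let e := Finite.equivFin A
    refine ⟨fun a => if h : a ∈ A then (e ⟨a, h⟩ : ℕ) else 0, fun hA => ⟨fun a ha => ?_,
      fun a ha b hb hab => ?_⟩⟩
    · simp only [dif_pos ha]
      exact (e ⟨a, ha⟩).2.trans_le hA
    · simp only [dif_pos ha, dif_pos hb] at hab
      exact congrArg Subtype.val (e.injective (Fin.ext hab))
  choose g hg using h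
  refine ⟨fun A B i => decide (∃ b ∈ B, g A b = i), fun A B B' hA hB hB' he => ?_⟩
  have key : ∀ C C' : Set V, C ⊆ A → C' ⊆ A →
      (∀ i : Fin N, (∃ b ∈ C, g A b = i) → ∃ b ∈ C', g A b = i) → C ⊆ C' := by
    intro C C' h1 h2 h3 a ha
    obtain ⟨b, e1, e2⟩ := h3 ⟨g A a, (hg A hA).1 a (h1 ha)⟩ ⟨a, ha, rfl⟩
    exact (hg A hA).2 (h2 e1) (h1 ha) e2 ▸ e1
  have h3 : ∀ i : Fin N, (∃ b ∈ B, g A b = i) ↔ ∃ b ∈ B', g A b = i := fun i =>
    decide_eq_decide.1 (congrFun he i)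
  exact (key B B' hB hB' fun i => (h3 i).1).antisymm (key B' B hB' hB fun i => (h3 i).2)

/-- everything that the compression of a sample records -/
structure Rec (G : SimpleGraph V) (S R : Dat V → Set V) (t : ℕ) (X Y : Set V × Set V) (c : V)
    (r : ℤ) (d : Dat V) (U : Set V) (σ : V → V) : Prop where
  real : Realizes (ball G c r) X
  sub₁ : Y.1 ⊆ X.1
  sub₂ : Y.2 ⊆ X.2
  card : (Y.1 ∪ Y.2).ncard ≤ 4 * t + 7
  US : U ⊆ S d
  dec : Dec G U σ
  cov : ∀ s ∈ U, σ s ∈ Y.1 ∧ Cov G c r s (σ s)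
  pos : ∀ x ∈ X.1, ∃ s ∈ U, G.edist s x ≤ G.edist s (σ s)
  neg : ∀ s ∈ S d, ∀ y ∈ X.2, ∃ y' ∈ Y.2, G.edist s y' ≤ G.edist s y
  reg : (X.1 ∪ X.2).Nonempty → (∀ i, d.1 i ∈ Y.1 ∪ Y.2) ∧ c ∈ R d ∧
    ∀ c' ∈ R d, ∀ x ∈ X.1 ∪ X.2, Cuts G (S d) c' x

lemma exists_rec {t : ℕ} {S R : Dat V → Set V} (hS : ∀ d, (S d).ncard ≤ 2 * t + 2)
    (hR : ∀ (X : Set V) (c : V), X.Nonempty → ∃ d : Dat V, (∀ i, d.1 i ∈ X) ∧ c ∈ R d ∧
      ∀ c' ∈ R d, ∀ x ∈ X, Cuts G (S d) c' x) (X : Sample (balls G)) :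
    ∃ Y c r d U σ, Rec G S R t X.1 Y c r d U σ := by
  obtain ⟨⟨X₁, X₂⟩, _, ⟨c, r, rfl⟩, hX⟩ := X
  rcases (X₁ ∪ X₂).eq_empty_or_nonempty with h0 | h0
  · obtain ⟨rfl, rfl⟩ := Set.union_empty_iff.1 h0
    exact ⟨(∅, ∅), c, r, (fun _ => c, fun _ => true), ∅, id, hX, subset_rfl, subset_rfl, by simp,
      by simp, by simp [Dec], by simp, by simp, by simp, by simp⟩
  obtain ⟨d, h1, h2, h3⟩ := hR _ c h0
  obtain ⟨U, σ, g1, g2, g3, g4⟩ := greedy (S := S d) (X := X₁) (c := c) (r := r)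
    fun x hx => (h3 c h2 x (Or.inl hx)).cov (hX.1 hx)
  obtain ⟨Y, n1, n2, n3⟩ := nearest G (S d) X₂
  refine ⟨(σ '' U ∪ (Set.range d.1 ∩ X₁), Y ∪ (Set.range d.1 ∩ X₂)), c, r, d, U, σ, hX, ?_, ?_, ?_,
    g1, g2, fun s hs => ⟨Or.inl ⟨s, hs, rfl⟩, (g3 s hs).2⟩, g4, fun s hs y hy => ?_,
    fun _ => ⟨fun i => ?_, h2, h3⟩⟩
  · rintro _ (⟨s, hs, rfl⟩ | h)
    exacts [(g3 s hs).1, h.2]
  · rintro y (h | h)
    exacts [n1 h, h.2]
  · have e1 : (σ '' U ∪ (Set.range d.1 ∩ X₁)) ∪ (Y ∪ (Set.range d.1 ∩ X₂)) ⊆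
        (σ '' U ∪ Y) ∪ Set.range d.1 := by
      rintro z ((h | h) | h | h)
      exacts [Or.inl (Or.inl h), Or.inr h.1, Or.inl (Or.inr h), Or.inr h.1]
    have e2 := Set.ncard_le_ncard e1 (Set.toFinite _)
    have e3 := Set.ncard_union_le (σ '' U ∪ Y) (Set.range d.1)
    have e4 := Set.ncard_union_le (σ '' U) Y
    have e5 : (σ '' U).ncard ≤ (S d).ncard :=
      (Set.ncard_image_le (Set.toFinite _)).trans (Set.ncard_le_ncard g1 (Set.toFinite _))
    have e6 : (Set.range d.1).ncard ≤ 3 := by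
      rw [← Set.image_univ]
      exact (Set.ncard_image_le (Set.toFinite _)).trans (by simp [Set.ncard_univ])
    have e7 := hS d
    dsimp only
    omega
  · obtain ⟨y', e1, e2⟩ := n3 s hs y hy
    exact ⟨y', Or.inl e1, e2⟩
  · rcases h1 i with h | h
    exacts [Or.inl (Or.inr ⟨⟨i, rfl⟩, h⟩), Or.inr (Or.inr ⟨⟨i, rfl⟩, h⟩)]

lemma Rec.realizes {t : ℕ} {S R : Dat V → Set V} {X X₀ Y : Set V × Set V} {c c₀ : V} {r r₀ : ℤ}
    {d : Dat V} {U : Set V} {σ σ₀ : V → V} (h : Rec G S R t X Y c r d U σ)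
    (h₀ : Rec G S R t X₀ Y c₀ r₀ d U σ₀) (he : σ '' U = σ₀ '' U) : Realizes (ball G c₀ r₀) X := by
  constructor
  · intro x hx
    obtain ⟨s, e1, e2⟩ := h.pos x hx
    rw [h.dec.unique h₀.dec he s e1] at e2
    exact ((h₀.cov s e1).2.mono e2).mem
  · refine Set.disjoint_left.2 fun y e1 e2 => ?_
    obtain ⟨g1, -, g3⟩ := h.reg ⟨y, Or.inr e2⟩
    have g4 : (X₀.1 ∪ X₀.2).Nonempty := ⟨d.1 0, (g1 0).imp (fun e => h₀.sub₁ e) fun e => h₀.sub₂ e⟩
    obtain ⟨s, e3, e4⟩ := (g3 c₀ (h₀.reg g4).2.1 y (Or.inr e2)).cov e1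
    obtain ⟨y', e5, e6⟩ := h.neg s e3 y e2
    exact Set.disjoint_left.1 h₀.real.2 (e4.mono e6).mem (h₀.sub₂ e5)

theorem scheme {t : ℕ} (h : TreewidthLE G t) : HasProperScheme (balls G) (22 * t + 40) := by
  classical
  obtain ⟨S, R, hS, hR⟩ := region_graph h
  choose Y c r d U σ hrec using exists_rec hS hR
  obtain ⟨eY, heY⟩ := exists_enc (V := V) (4 * t + 7)
  obtain ⟨eS, heS⟩ := exists_enc (V := V) (2 * t + 2)
  let J := (Fin 3 × Fin (4 * t + 7)) ⊕ Fin 3 ⊕ Fin (2 * t + 2) ⊕ Fin (4 * t + 7)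
  have hJ : Fintype.card J = 18 * t + 33 := by
    simp only [J, Fintype.card_sum, Fintype.card_prod, Fintype.card_fin]
    omega
  let code : Sample (balls G) → J → Bool := fun X =>
    Sum.elim (fun p => eY ((Y X).1 ∪ (Y X).2) {(d X).1 p.1} p.2) (Sum.elim (d X).2
      (Sum.elim (eS (S (d X)) (U X)) (eY ((Y X).1 ∪ (Y X).2) (σ X '' U X))))
  let κ : Sample (balls G) → Sample (balls G) × List Bool := fun X =>
    (⟨Y X, ball G (c X) (r X), ⟨_, _, rfl⟩, (hrec X).sub₁.trans (hrec X).real.1,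
      (hrec X).real.2.mono_right (hrec X).sub₂⟩, List.ofFn (code X ∘ (Fintype.equivFin J).symm))
  have key : ∀ X X₀, κ X₀ = κ X → Realizes (ball G (c X₀) (r X₀)) X.1 := by
    intro X X₀ hκ
    rcases (X.1.1 ∪ X.1.2).eq_empty_or_nonempty with h0 | h0
    · obtain ⟨h1, h2⟩ := Set.union_empty_iff.1 h0
      exact ⟨by simp [h1], by simp [h2]⟩
    have hY : Y X₀ = Y X := congrArg (fun p => p.1.1) hκ
    have hc : code X₀ = code X := by
      have h1 := List.ofFn_injective (congrArg Prod.snd hκ)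
      funext j
      simpa using congrFun h1 (Fintype.equivFin J j)
    have g1 := ((hrec X).reg h0).1
    have g2 := ((hrec X₀).reg ⟨(d X).1 0, (hY ▸ g1 0).imp (fun e => (hrec X₀).sub₁ e)
      fun e => (hrec X₀).sub₂ e⟩).1
    have hd : d X₀ = d X := by
      refine Prod.ext (funext fun i => Set.singleton_injective (heY _ _ _ (hrec X).card
        (Set.singleton_subset_iff.2 (hY ▸ g2 i)) (Set.singleton_subset_iff.2 (g1 i)) ?_))
        (funext fun i => congrFun hc (Sum.inr (Sum.inl i)))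
      funext k
      have := congrFun hc (Sum.inl (i, k))
      simpa only [code, Sum.elim_inl, hY] using this
    have hU : U X₀ = U X := by
      refine heS _ _ _ (hS (d X)) (hd ▸ (hrec X₀).US) (hrec X).US ?_
      funext k
      have := congrFun hc (Sum.inr (Sum.inr (Sum.inl k)))
      simpa only [code, Sum.elim_inl, Sum.elim_inr, hd] using this
    have im : ∀ Z, σ Z '' U Z ⊆ (Y Z).1 ∪ (Y Z).2 := by
      rintro Z _ ⟨s, hs, rfl⟩
      exact Or.inl ((hrec Z).cov s hs).1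
    have hσ : σ X₀ '' U X₀ = σ X '' U X := by
      refine heY _ _ _ (hrec X).card (hY ▸ im X₀) (im X) ?_
      funext k
      have := congrFun hc (Sum.inr (Sum.inr (Sum.inr k)))
      simpa only [code, Sum.elim_inr, hY] using this
    have h₀ := hrec X₀
    rw [hU] at hσ
    rw [hY, hd, hU] at h₀
    exact (hrec X).realizes h₀ hσ.symm
  refine ⟨κ, fun p => if h : ∃ X₀, κ X₀ = p then ball G (c h.choose) (r h.choose)
    else ball G (c p.1) (r p.1), 4 * t + 7, 18 * t + 33, by omega, fun X => ⟨(hrec X).sub₁,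
      (hrec X).sub₂, ?_, (hrec X).card, ?_⟩, fun p => ?_⟩
  · have h1 : ∃ X₀, κ X₀ = κ X := ⟨X, rfl⟩
    simp only [dif_pos h1]
    exact key X _ h1.choose_spec
  · simp [κ, hJ]
  · dsimp only
    split_ifs
    exacts [⟨_, _, rfl⟩, ⟨_, _, rfl⟩]

end Pool.Agent.MP_dcb13e_co.H41
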